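import Pool.Agent.Helper61.P3.St4

/-!
# P3 MODULE FAS: far pairs, fixed `s` and types
-/

set_option autoImplicit false

open MeasureTheory Set Filter Topology
open scoped ENNReal RealInnerProductSpace

namespace Pool.Agent.Helper9.P3

open Pool.Agent.Helper61.P3 Pool.Agent.Helper20.RG Pool.Agent.Helper20.EQ
open Pool.Agent.Helper68.LM (Pl BB Bd Av HL ft fm DQ)
open Pool.Agent.Helper68.EP (elt GapP)

private theorem card_leF (S : Set ℕ) (u : ℕ) (h : ∀ j ∈ S, j < 2 ^ u) :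
    (S.ncard : ℝ) ≤ (2 : ℝ) ^ u := by
  have h1 : S ⊆ ((Finset.range (2 ^ u) : Finset ℕ) : Set ℕ) := by
    intro j hj
    simpa using h j hj
  have h2 := Set.ncard_le_ncard h1 (Finset.finite_toSet _)
  rw [Set.ncard_coe_finset, Finset.card_range] at h2
  exact_mod_cast h2

/-- consequences of the two conditions at a point -/
private theorem keyF (hNUC : StNUC) : ∃ UN : ℕ, 2 ≤ UN ∧
    ∀ (φ τ : ℝ → ℝ) (c : Pl) (s n n' ρ ρ' u : ℕ) (k l : ℤ) (f : Pl → ℝ) (x : Pl),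
      UN ≤ u → 8 * u < s → 10000 * n < u →
      mt (Vs u) u n ρ / 2 ≤ ((HP c φ τ u (et ρ) k (lev f (l - 1 + n)) x).ncard : ℝ) →
      TY c φ τ (Vs (u + s)) (u + s) n' ρ' k l f x →
      1000 * ρ ≤ u ∧ (2 : ℝ) ^ ((1999 / 2000 : ℝ) * u) ≤ mt (Vs u) u n ρ / 2 ∧
        1000 * ρ' ≤ u + s ∧
        (2 : ℝ) ^ ((1999 / 2000 : ℝ) * ((u : ℝ) + s)) ≤ mt (Vs (u + s)) (u + s) n' ρ' ∧
        10000 * n' < u + s ∧ (4 : ℝ) ^ (1 - (n' : ℤ)) ≤ 4 := by
  obtain ⟨UN, hUN, N1, N2, -⟩ := hNUC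
  refine ⟨UN, hUN, ?_⟩
  intro φ τ c s n n' ρ ρ' u k l f x hu hs hn h1 h2
  obtain ⟨h3, h4⟩ := h2
  have c1 := card_leF _ u (fun j (hj : j ∈ HP c φ τ u (et ρ) k (lev f (l - 1 + n)) x) => hj.1)
  have c2 := card_leF _ (u + s)
    (fun j (hj : j ∈ Hh c φ τ (u + s) ρ' k (lev f (l - 1 + n')) x) => hj.1)
  obtain ⟨v1, v2⟩ := N2 u u hu (by omega)
  obtain ⟨v3, v4⟩ := N2 (u + s) (u + s) (by omega) (by omega)
  have m1 : mt (Vs u) u n ρ ≤ (2 : ℝ) ^ (u + 1) := by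
    rw [pow_succ]
    linarith
  have m2 : mt (Vs (u + s)) (u + s) n' ρ' ≤ (2 : ℝ) ^ (u + s + 1) := by
    have h5 : (0 : ℝ) < 2 ^ (u + s) := by positivity
    rw [pow_succ]
    linarith
  obtain ⟨a1, a2, -, -⟩ := N1 (Vs u) u n ρ hu hn v1 v2 m1
  obtain ⟨b1, b2, -, b4⟩ := N1 (Vs (u + s)) (u + s) n' ρ' (by omega) h3 v3 v4 m2
  refine ⟨a1, a2, b1, ?_, h3, b4⟩
  have h5 : (0 : ℝ) < (2 : ℝ) ^ ((1999 / 2000 : ℝ) * ((u + s : ℕ) : ℝ)) := by positivity
  push_cast at b2 h5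
  linarith

/-- at most `s` values of `u` -/
private theorem cntF (s U : ℕ) (a : ℝ≥0∞) :
    ∑' u : ℕ, (if U ≤ u ∧ 8 * u < s then a else 0) ≤ (s : ℝ≥0∞) * a := by
  have h1 : ∑' u : ℕ, (if U ≤ u ∧ 8 * u < s then a else 0)
      = ∑ u ∈ Finset.range s, (if U ≤ u ∧ 8 * u < s then a else 0) := by
    refine tsum_eq_sum fun u hu => ?_
    rw [Finset.mem_range] at hu
    rw [if_neg (by omega)]
  rw [h1]
  calc ∑ u ∈ Finset.range s, (if U ≤ u ∧ 8 * u < s then a else 0)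
      ≤ ∑ _u ∈ Finset.range s, a := by
        refine Finset.sum_le_sum fun u _ => ?_
        split_ifs
        · exact le_rfl
        · exact zero_le'
    _ = (s : ℝ≥0∞) * a := by
        rw [Finset.sum_const, Finset.card_range, nsmul_eq_mul]

theorem hFAS (hGDL : Pool.Agent.Helper20.EQ.StGDL) (hRIY : Pool.Agent.Helper61.P3.StRIY)
    (hNUC : Pool.Agent.Helper61.P3.StNUC) (hFAR : Pool.Agent.Helper61.P3.StFAR)
    (hQSU : Pool.Agent.Helper61.P3.StQSU) : Pool.Agent.Helper61.P3.StFAS := by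
  intro φ τ A c hG hA hgap
  obtain ⟨CF, UF, hCF, hUF, HF⟩ := hFAR φ τ A c hG hA hgap
  obtain ⟨UN, hUN, key⟩ := keyF hNUC
  obtain ⟨CQ, hCQ, HQ⟩ := hQSU φ τ A hG hA hgap
  obtain ⟨G1, G2, -⟩ := hGDL
  refine ⟨8 * CF * (CQ + 1), max UF UN, by nlinarith, ?_⟩
  intro R₀ s n n' ρ ρ' f hR hf hf0
  by_cases hcond : n ≤ s ∧ n' ≤ s ∧ ρ ≤ s ∧ ρ' ≤ s
  · rw [if_pos hcond]
    have e0 : (0 : ℝ) < (2 : ℝ) ^ (-((s : ℝ) / 20)) := by positivity
    set E : ℝ := (2 : ℝ) ^ (-((s : ℝ) / 20)) with hE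
    set X : ℕ → (Pl → ℝ) → ℝ≥0∞ := fun u g =>
      if max UF UN ≤ u ∧ 8 * u < s then ENNReal.ofReal (CF * E) *
        (ENNReal.ofReal ((2 : ℝ) ^ (-(3 * (u : ℝ)))) * BQ0 τ u g + ∫⁻ x, ‖g x‖ₑ ^ 2) else 0
      with hX
    have hB0 : 0 ≤ CF * E * (CQ + s) := by positivity
    -- the sum over the classes
    have hsum : ∀ g : Pl → ℝ, BB g → (∀ x, 0 ≤ g x ∧ g x ≤ 1) →
        ∑' u : ℕ, X u g ≤ ENNReal.ofReal (CF * E * (CQ + s)) * ∫⁻ x, ‖g x‖ₑ ^ 2 := by
      intro g hg _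
      have h1 : ∀ u : ℕ, X u g ≤ ENNReal.ofReal (CF * E) *
          ((if 2 ≤ u then ENNReal.ofReal ((2 : ℝ) ^ (-(3 * (u : ℝ)))) * BQ0 τ u g else 0)
            + (if max UF UN ≤ u ∧ 8 * u < s then ∫⁻ x, ‖g x‖ₑ ^ 2 else 0)) := by
        intro u
        simp only [hX]
        by_cases h : max UF UN ≤ u ∧ 8 * u < s
        · have h2 : 2 ≤ u := le_trans (le_trans hUF (le_max_left _ _)) h.1
          rw [if_pos h, if_pos h2, if_pos h]
        · rw [if_neg h]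
          exact zero_le'
      calc ∑' u : ℕ, X u g
          ≤ ∑' u : ℕ, ENNReal.ofReal (CF * E) *
            ((if 2 ≤ u then ENNReal.ofReal ((2 : ℝ) ^ (-(3 * (u : ℝ)))) * BQ0 τ u g else 0)
              + (if max UF UN ≤ u ∧ 8 * u < s then ∫⁻ x, ‖g x‖ₑ ^ 2 else 0)) :=
            ENNReal.tsum_le_tsum h1
        _ = ENNReal.ofReal (CF * E) *
            ((∑' u : ℕ, (if 2 ≤ u then
              ENNReal.ofReal ((2 : ℝ) ^ (-(3 * (u : ℝ)))) * BQ0 τ u g else 0))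
              + ∑' u : ℕ, (if max UF UN ≤ u ∧ 8 * u < s then ∫⁻ x, ‖g x‖ₑ ^ 2 else 0)) := by
            rw [ENNReal.tsum_mul_left, ENNReal.tsum_add]
        _ ≤ ENNReal.ofReal (CF * E) *
            (ENNReal.ofReal CQ * (∫⁻ x, ‖g x‖ₑ ^ 2) + (s : ℝ≥0∞) * ∫⁻ x, ‖g x‖ₑ ^ 2) :=
            mul_le_mul_right (add_le_add (HQ g hg).1 (cntF s _ _)) _
        _ = ENNReal.ofReal (CF * E * (CQ + s)) * ∫⁻ x, ‖g x‖ₑ ^ 2 := by
            rw [ENNReal.ofReal_mul (by positivity : (0 : ℝ) ≤ CF * E),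
              ENNReal.ofReal_add (by linarith) (by positivity), ENNReal.ofReal_natCast]
            ring
    have hR3 := hRIY (CF * E * (CQ + s)) X hB0 hsum f n hf hf0
    -- the pointwise comparison
    have hin : ∀ (l : ℤ) (u : ℕ), (if max UF UN ≤ u ∧ 8 * u < s ∧ 10000 * n < u then
        ∑' k : ℤ, volume {x | Gd R₀ l f x ∧
          mt (Vs u) u n ρ / 2 ≤ ((HP c φ τ u (et ρ) k (lev f (l - 1 + n)) x).ncard : ℝ) ∧
          TY c φ τ (Vs (u + s)) (u + s) n' ρ' k l f x} else 0) ≤ X u (lev f (l - 1 + n)) := by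
      intro l u
      by_cases h : max UF UN ≤ u ∧ 8 * u < s ∧ 10000 * n < u
      · rw [if_pos h]
        obtain ⟨h1, h2, h3⟩ := h
        simp only [hX]
        rw [if_pos ⟨h1, h2⟩]
        by_cases hne : ∃ (k : ℤ) (x : Pl),
            mt (Vs u) u n ρ / 2 ≤ ((HP c φ τ u (et ρ) k (lev f (l - 1 + n)) x).ncard : ℝ) ∧
            TY c φ τ (Vs (u + s)) (u + s) n' ρ' k l f x
        · obtain ⟨k₀, x₀, q1, q2⟩ := hne
          obtain ⟨r1, r2, r3, r4, r5, r6⟩ := key φ τ c s n n' ρ ρ' u k₀ l f x₀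
            (le_trans (le_max_right _ _) h1) h2 h3 q1 q2
          obtain ⟨g1, g2⟩ := G1 f (l - 1 + n) hf hf0
          obtain ⟨g3, g4⟩ := G1 f (l - 1 + n') hf hf0
          have hloc : ∀ x ∈ {x | Gd R₀ l f x},
              Loc CF ((4 : ℝ) ^ (1 - (n' : ℤ))) (lev f (l - 1 + n')) x := by
            intro x hx
            have h5 := G2 CF R₀ f l (l - 1 + n') x hCF (by nlinarith) hf hf0 hx
            have h6 : l - (l - 1 + (n' : ℤ)) = 1 - (n' : ℤ) := by ring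
            rw [h6] at h5
            exact h5
          have h7 := HF u s ρ ρ' (mt (Vs u) u n ρ / 2) (mt (Vs (u + s)) (u + s) n' ρ')
            ((4 : ℝ) ^ (1 - (n' : ℤ))) (lev f (l - 1 + n)) (lev f (l - 1 + n'))
            {x | Gd R₀ l f x} (le_trans (le_max_left _ _) h1) h2 r1 r3 r2 r4 (by positivity) r6
            g1 g3 g2 g4 hloc
          refine le_trans (ENNReal.tsum_le_tsum fun k => measure_mono ?_) h7
          rintro x ⟨w1, w2, w3⟩
          exact ⟨w1, w2, w3.2⟩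
        · have h8 : ∀ k : ℤ, volume {x | Gd R₀ l f x ∧
              mt (Vs u) u n ρ / 2 ≤ ((HP c φ τ u (et ρ) k (lev f (l - 1 + n)) x).ncard : ℝ) ∧
              TY c φ τ (Vs (u + s)) (u + s) n' ρ' k l f x} = 0 := by
            intro k
            have h9 : {x | Gd R₀ l f x ∧
              mt (Vs u) u n ρ / 2 ≤ ((HP c φ τ u (et ρ) k (lev f (l - 1 + n)) x).ncard : ℝ) ∧
              TY c φ τ (Vs (u + s)) (u + s) n' ρ' k l f x} = ∅ := by
              ext x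
              simp only [mem_setOf_eq, mem_empty_iff_false, iff_false]
              rintro ⟨-, w2, w3⟩
              exact hne ⟨k, x, w2, w3⟩
            rw [h9, measure_empty]
          simp only [h8, tsum_zero]
          exact zero_le'
      · rw [if_neg h]
        exact zero_le'
    refine le_trans (ENNReal.tsum_le_tsum fun l =>
      mul_le_mul_right (ENNReal.tsum_le_tsum fun u => hin l u) _) (hR3.trans ?_)
    refine mul_le_mul_left (ENNReal.ofReal_le_ofReal ?_) _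
    have h10 : (2 : ℝ) ^ (-(3 * (n : ℤ))) ≤ 1 := by
      refine zpow_le_one_of_nonpos₀ (by norm_num) ?_
      have : (0 : ℤ) ≤ (n : ℤ) := Int.natCast_nonneg n
      omega
    have h11 : (0 : ℝ) ≤ (s : ℝ) := Nat.cast_nonneg s
    calc 8 * (2 : ℝ) ^ (-(3 * (n : ℤ))) * (CF * E * (CQ + s))
        ≤ 8 * 1 * (CF * E * (CQ + s)) :=
          mul_le_mul_of_nonneg_right (by linarith) hB0
      _ ≤ 8 * 1 * (CF * E * ((CQ + 1) * (s + 1))) := by
          have h12 : CQ + s ≤ (CQ + 1) * (s + 1) := by nlinarith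
          exact mul_le_mul_of_nonneg_left
            (mul_le_mul_of_nonneg_left h12 (by positivity)) (by norm_num)
      _ = 8 * CF * (CQ + 1) * ((s : ℝ) + 1) * E := by ring
  · rw [if_neg hcond, zero_mul]
    have h1 : ∀ (l : ℤ) (u : ℕ), (if max UF UN ≤ u ∧ 8 * u < s ∧ 10000 * n < u then
        ∑' k : ℤ, volume {x | Gd R₀ l f x ∧
          mt (Vs u) u n ρ / 2 ≤ ((HP c φ τ u (et ρ) k (lev f (l - 1 + n)) x).ncard : ℝ) ∧
          TY c φ τ (Vs (u + s)) (u + s) n' ρ' k l f x} else 0) = 0 := by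
      intro l u
      by_cases h : max UF UN ≤ u ∧ 8 * u < s ∧ 10000 * n < u
      · rw [if_pos h]
        obtain ⟨h1, h2, h3⟩ := h
        have h8 : ∀ k : ℤ, volume {x | Gd R₀ l f x ∧
            mt (Vs u) u n ρ / 2 ≤ ((HP c φ τ u (et ρ) k (lev f (l - 1 + n)) x).ncard : ℝ) ∧
            TY c φ τ (Vs (u + s)) (u + s) n' ρ' k l f x} = 0 := by
          intro k
          have h9 : {x | Gd R₀ l f x ∧
            mt (Vs u) u n ρ / 2 ≤ ((HP c φ τ u (et ρ) k (lev f (l - 1 + n)) x).ncard : ℝ) ∧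
            TY c φ τ (Vs (u + s)) (u + s) n' ρ' k l f x} = ∅ := by
            ext x
            simp only [mem_setOf_eq, mem_empty_iff_false, iff_false]
            rintro ⟨-, w2, w3⟩
            obtain ⟨r1, -, r3, -, r5, -⟩ := key φ τ c s n n' ρ ρ' u k l f x
              (le_trans (le_max_right _ _) h1) h2 h3 w2 w3
            exact hcond ⟨by omega, by omega, by omega, by omega⟩
          rw [h9, measure_empty]
        simp only [h8, tsum_zero]
      · rw [if_neg h]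
    simp only [h1, tsum_zero, mul_zero]
    exact le_rfl

end Pool.Agent.Helper9.P3
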